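import Pool.Agent.Y466.FT.Fam

/-!
# Two families of knots with powers of pure braids: one order is enough, and a zero-one law

Starting library `Pool.Agent.H835R2.Knot.Defs`: `Word` (oriented sliced link diagrams), `IsKnot`,
`Isotopic`, `IsInvariant v` (`v` is an invariant of oriented knots), `DegreeLE n v` (`v` is a Vassiliev
invariant of order at most `n`).

`Pool.Agent.Y466.FT.Defs`: `Braid` (braid words), `IsPure w` (the permutation of the strands is
trivial), `family u₀ w u q`, `q ∈ ℤ^k`: the diagram `u₀ w₁^{q₁} u₁ w₂^{q₂} u₂ ⋯ w_k^{q_k} u_k`, the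
powers of arbitrary braid words `w_i` being inserted at `k` places of an arbitrary diagram
`u₀ u₁ ⋯ u_k` (one above the other, on any strands).

`Pool.Agent.Y466.FT.Fam`: `Separated n D E` (some rational valued Vassiliev invariant of order at
most `n` has different values on `D` and `E`).

Proof: on such a family every Vassiliev invariant of order at most `n` is a polynomial function of
degree at most `n` of the exponents; Hilbert's basis theorem and the Schwartz-Zippel lemma.
-/

set_option autoImplicit false

namespace Pool.Agent.Results.MP_31fd3b_gt.BraidPowerFamilies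

open Finset Pool.Agent.H835R2 Pool.Agent.H835R2.Knot Pool.Agent.Y466.FT

open Classical in
/-- Let `D(q)`, `q ∈ ℤ^k`, and `D'(q')`, `q' ∈ ℤ^k'`, be two families of diagrams obtained from two
diagrams by inserting powers `w_i^{q_i}` (`w'_i^{q'_i}`) of pure braids at `k` (`k'`) places, and
suppose that `D(1, …, 1)` and `D'(1, …, 1)` are knot diagrams.

* All `D(q)` and all `D'(q')` are knot diagrams.
* There are an order `d` and a polynomial `P` with rational coefficients such that for all `q`, `q'`:
  if any Vassiliev invariant at all has different values on `D(q)` and `D'(q')` then so has one of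
  order at most `d`; and this is the case if and only if `P(q, q') ≠ 0`.
* If Vassiliev invariants of order at most `n` separate one pair `D(q₀)`, `D'(q₀')`, then in every box
  `∏ A i × ∏ A' i` whose sides have at least `M` elements they separate all the pairs except a
  proportion of at most `n / M`.
* A Vassiliev invariant of order at most `n` with values in any abelian group has the same value on
  all the `D(q)` and `D'(q')` if this holds for the `(q, q')` in one simplex of size `n`. -/
theorem result {k k' : ℕ} (u₀ : Word) (w : Fin k → Braid) (u : Fin k → Word)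
    (u₀' : Word) (w' : Fin k' → Braid) (u' : Fin k' → Word)
    (hp : ∀ j, IsPure (w j)) (hp' : ∀ j, IsPure (w' j))
    (h : IsKnot (family u₀ w u 1)) (h' : IsKnot (family u₀' w' u' 1)) :
    ((∀ q, IsKnot (family u₀ w u q)) ∧ ∀ q', IsKnot (family u₀' w' u' q')) ∧
    (∃ (d : ℕ) (P : MvPolynomial (Fin k ⊕ Fin k') ℚ), ∀ (q : Fin k → ℤ) (q' : Fin k' → ℤ),
      ((∃ n, Separated n (family u₀ w u q) (family u₀' w' u' q')) ↔
        Separated d (family u₀ w u q) (family u₀' w' u' q')) ∧
      (Separated d (family u₀ w u q) (family u₀' w' u' q') ↔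
        MvPolynomial.eval (Sum.elim (fun i => (q i : ℚ)) fun i => (q' i : ℚ)) P ≠ 0)) ∧
    (∀ (n : ℕ) (q₀ : Fin k → ℤ) (q₀' : Fin k' → ℤ),
      Separated n (family u₀ w u q₀) (family u₀' w' u' q₀') →
      ∀ (A : Fin k → Finset ℤ) (A' : Fin k' → Finset ℤ) (M : ℕ),
        (∀ i, M ≤ (A i).card) → (∀ i, M ≤ (A' i).card) →
        M * #{z ∈ Fintype.piFinset A ×ˢ Fintype.piFinset A' |
            ¬ Separated n (family u₀ w u z.1) (family u₀' w' u' z.2)} ≤
          n * ((∏ i, (A i).card) * ∏ i, (A' i).card)) ∧
    (∀ {B : Type} [AddCommGroup B] (n : ℕ) (v : Word → B), IsInvariant v → DegreeLE n v →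
      ∀ (a : Fin k → ℤ) (a' : Fin k' → ℤ),
        (∀ q q', a ≤ q → a' ≤ q' → ∑ i, (q i - a i) + ∑ i, (q' i - a' i) ≤ n →
          v (family u₀ w u q) = v (family u₀' w' u' q')) →
        ∀ q q', v (family u₀ w u q) = v (family u₀' w' u' q')) := by
  have hD : Fam (family u₀ w u) := fam_family hp h
  have hD' : Fam (family u₀' w' u') := fam_family hp' h'
  refine ⟨⟨hD.1, hD'.1⟩, ?_, ?_, ?_⟩
  · obtain ⟨d, P, hP⟩ := locus_pair hD hD'
    refine ⟨d, P, fun q q' => ⟨(hP q q').2.symm, ?_⟩⟩
    have := (hP q q').1
    tauto
  · intro n q₀ q₀' hs A A' M hA hA'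
    have := zero_one hD hD' hs A A' M hA hA'
    convert this
  · intro B _ n v hv hn a a' ht q q'
    exact simplex_pair hD hD' hv hn a a' ht q q'

end Pool.Agent.Results.MP_31fd3b_gt.BraidPowerFamilies
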