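import Pool.Agent.TH561.AD.TwoE

/-!
# Vassiliev invariants of freely periodic knots with the same number of full twists: descent to the
# quotients

`Pool.Agent.TH561.PK.Defs` contains the definitions:

* `Elem M`: an elementary tangle on `M` vertical strands: a crossing of one of the two kinds between
  the places `i` and `i + 1`, or a hook (the two lower points at the places `i`, `i + 1` are joined by a
  cap, the two upper points by a cup);
* `annular w dir`: the closure in the annulus of the tangle `w 0, w 1, …, w (L-1)` (one above the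
  other); its marked points are the points `(t, j)` (level `t ∈ ℤ/L`, place `j`);
* `Oriented w dir`: `dir` is an orientation of the curves of this diagram (`dir (t, j) = true`: upwards);
* `linking dir t`: number of the strands directed upwards minus number of the strands directed
  downwards at the level `t`, which is the linking number with the axis of the annulus;
* `IsKnot D`: all marked points are on one curve.

`freeWord n w a` (in `Pool.Agent.TH561.FP.Defs`) is the word `w` repeated `n` times, followed by `a`
full twists on all `M` strands, that is by the word `(σ_0 σ_1 ⋯ σ_{M-2})^M` repeated `|a|` times, with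
crossings of the kind given by the sign of `a`.  So `annular (freeWord n w a) dir` is a knot with a
symmetry of order `n` (a free one if `a` is prime to `n`, the quotient being a knot in the lens space
`L(n, a)`; a rotation for `a = 0`), and `annular (freeWord 1 w b) d` is the closure of `w` followed by
`b` full twists.

`red p f` is the Laurent polynomial `f` with coefficients modulo `p`.  `Dia`, `IsVassiliev`,
`Separated d X Y` (an integer valued Vassiliev invariant of oriented links of order at most `d` takes
different values on `X` and `Y`) are in `Pool.Agent.H832R3.VJ.Defs`, `Diagram`, `Diagram.IsClosed` and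
`Diagram.fPoly` (the normalised Kauffman bracket) in `Pool.Agent.H891R2.Jones.Diagram`.
-/

set_option autoImplicit false

namespace Pool.Agent.Results.MP_31fd3b_gt.EqualTwistPairs

open LaurentPolynomial Pool.Agent.H891R2.Jones Pool.Agent.TH561 Pool.Agent.TH561.PK
  Pool.Agent.TH561.FP Pool.Agent.TH561.AD
open Pool.Agent.H832R3.VJ (Separated)

/-- Let `D`, `D'` be knot diagrams which are the closures in the annulus of `w ^ q` followed by `a` full
twists on all `M` strands, and of `w' ^ q` followed by the same number `a` of full twists on all `M'`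
strands, where `q = p ^ k` is a power of a prime `p ≥ 5` with
`q > 2 N (|a| N + 1)` and `q > |a| N (N + 2) + 4 N` for `N = max M M'`.  For an integer `b` let `K_b`,
`K'_b` be the closures of `w`, `w'` followed by `b` full twists.

* For every `m ≥ 1`: `D` and `D'` are separated by a Vassiliev invariant of order less than `q m`, or
  `f_{K_b}` and `f_{K'_b}` are congruent modulo `(p, (A - 1) ^ m)` for every `b`.
* If `D` and `D'` are not separated by Vassiliev invariants of order less than `q`, then they have the
  same linking number with the axis up to sign.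
* If `f_D ≡ f_{D'}` modulo `p`, then `f_{K_b} ≡ f_{K'_b}` modulo `p` for every `b`.
* If `p > 2 ^ (M + 2 l) + 2 ^ (M' + 2 l')` (`l`, `l'` the numbers of letters of `w`, `w'`) and
  `f_D = f_{D'}`, then `f_{K_b} = f_{K'_b}` for every `b`. -/
theorem result (M l : ℕ) (hl : 0 < l) (w : Fin l → Elem M) (M' l' : ℕ) (hl' : 0 < l')
    (w' : Fin l' → Elem M') (a : ℤ) (p k : ℕ) (hp : p.Prime) (hp5 : 5 ≤ p) (hk : 1 ≤ k)
    (hq : 2 * max M M' * (a.natAbs * max M M' + 1) < p ^ k)
    (hq' : a.natAbs * (max M M' * (max M M' + 2)) + 4 * max M M' < p ^ k)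
    (dir : Fin (p ^ k * l + a.natAbs * (M * (M - 1))) × Fin M → Bool)
    (ho : Oriented (freeWord (p ^ k) w a) dir) (hK : IsKnot (annular (freeWord (p ^ k) w a) dir))
    (dir' : Fin (p ^ k * l' + a.natAbs * (M' * (M' - 1))) × Fin M' → Bool)
    (ho' : Oriented (freeWord (p ^ k) w' a) dir')
    (hK' : IsKnot (annular (freeWord (p ^ k) w' a) dir')) :
    ((annular (freeWord (p ^ k) w a) dir).IsClosed ∧
      (annular (freeWord (p ^ k) w' a) dir').IsClosed) ∧
    (∀ m : ℕ, 1 ≤ m →
      Separated (p ^ k * m - 1) ⟨_, inferInstance, annular (freeWord (p ^ k) w a) dir⟩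
        ⟨_, inferInstance, annular (freeWord (p ^ k) w' a) dir'⟩ ∨
      ∀ (b : ℤ) (d : Fin (1 * l + b.natAbs * (M * (M - 1))) × Fin M → Bool)
        (d' : Fin (1 * l' + b.natAbs * (M' * (M' - 1))) × Fin M' → Bool),
        Oriented (freeWord 1 w b) d → Oriented (freeWord 1 w' b) d' →
        (T 1 - 1 : (ZMod p)[T;T⁻¹]) ^ m ∣
          red p (annular (freeWord 1 w b) d).fPoly - red p (annular (freeWord 1 w' b) d').fPoly) ∧
    (Separated (p ^ k - 1) ⟨_, inferInstance, annular (freeWord (p ^ k) w a) dir⟩
        ⟨_, inferInstance, annular (freeWord (p ^ k) w' a) dir'⟩ ∨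
      ∀ t t', linking dir t = linking dir' t' ∨ linking dir t = - linking dir' t') ∧
    (red p (annular (freeWord (p ^ k) w a) dir).fPoly =
        red p (annular (freeWord (p ^ k) w' a) dir').fPoly →
      ∀ (b : ℤ) (d : Fin (1 * l + b.natAbs * (M * (M - 1))) × Fin M → Bool)
        (d' : Fin (1 * l' + b.natAbs * (M' * (M' - 1))) × Fin M' → Bool),
        Oriented (freeWord 1 w b) d → Oriented (freeWord 1 w' b) d' →
        red p (annular (freeWord 1 w b) d).fPoly = red p (annular (freeWord 1 w' b) d').fPoly) ∧
    (2 ^ (M + 2 * l) + 2 ^ (M' + 2 * l') < p →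
      (annular (freeWord (p ^ k) w a) dir).fPoly = (annular (freeWord (p ^ k) w' a) dir').fPoly →
      ∀ (b : ℤ) (d : Fin (1 * l + b.natAbs * (M * (M - 1))) × Fin M → Bool)
        (d' : Fin (1 * l' + b.natAbs * (M' * (M' - 1))) × Fin M' → Bool),
        Oriented (freeWord 1 w b) d → Oriented (freeWord 1 w' b) d' →
        (annular (freeWord 1 w b) d).fPoly = (annular (freeWord 1 w' b) d').fPoly) := by
  have hM : 0 < M := by
    have := (w ⟨0, hl⟩).2.2
    omega
  have hM' : 0 < M' := by
    have := (w' ⟨0, hl'⟩).2.2
    omega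
  have : Fact p.Prime := ⟨hp⟩
  have hpos : 0 < p ^ k := Nat.pow_pos hp.pos
  have hw' : wid a (max M M') < p ^ k := hq'
  refine ⟨⟨annular_closed _ dir ho, annular_closed _ dir' ho'⟩, fun m hm => ?_, ?_, fun hf b d d' hd hd' => ?_,
    fun hb hf b d d' hd hd' => ?_⟩
  · by_cases hS : Separated (p ^ k * m - 1) ⟨_, inferInstance, annular (freeWord (p ^ k) w a) dir⟩
        ⟨_, inferInstance, annular (freeWord (p ^ k) w' a) dir'⟩
    · left; exact hS
    · right
      intro b d d' hd hd'
      have h1 := red_T_sub_one p _ _ (dvd_of_not_separated _ _ _ hS)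
      rw [Nat.sub_add_cancel (Nat.mul_pos hpos hm), map_sub] at h1
      obtain ⟨r, rfl⟩ : ∃ r, m = r + 1 := ⟨m - 1, by omega⟩
      exact pair_order p k hp5 hk hl hM w hl' hM' w' a dir ho hK dir' ho' hK' hpos _ rfl hq hw' r h1
        b d d' hd hd'
  · by_cases hS : Separated (p ^ k - 1) ⟨_, inferInstance, annular (freeWord (p ^ k) w a) dir⟩
        ⟨_, inferInstance, annular (freeWord (p ^ k) w' a) dir'⟩
    · left; exact hS
    · right
      intro t t'
      have h1 := red_T_sub_one p _ _ (dvd_of_not_separated _ _ _ hS)
      rw [Nat.sub_add_cancel hpos, map_sub] at h1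
      have h2 := pair_sq p k hp5 hk hl hM w hl' hM' w' a dir ho hK dir' ho' hK' hpos _ rfl hq
        ((pow_dvd_pow _ (Nat.sub_le _ _)).trans h1)
      have hem : (0 : ℕ) < p ^ k * l + a.natAbs * (M * (M - 1)) := by
        have := Nat.mul_pos hpos hl
        omega
      have hem' : (0 : ℕ) < p ^ k * l' + a.natAbs * (M' * (M' - 1)) := by
        have := Nat.mul_pos hpos hl'
        omega
      rw [linking_const _ dir ho t ⟨0, hem⟩, linking_const _ dir' ho' t' ⟨0, hem'⟩]
      have e1 : linking dir ⟨0, hem⟩ = linking (fst hl hpos dir) ⟨0, hl⟩ := rfl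
      have e2 : linking dir' ⟨0, hem'⟩ = linking (fst hl' hpos dir') ⟨0, hl'⟩ := rfl
      rw [e1, e2]
      exact sq_eq_sq_iff_eq_or_eq_neg.1 h2
  · exact pair_modp p k hp5 hk hl hM w hl' hM' w' a dir ho hK dir' ho' hK' hpos _ rfl hq hf b d d' hd hd'
  · exact pair_exact p k hp5 hk hl hM w hl' hM' w' a dir ho hK dir' ho' hK' hpos _ rfl hq hb hf b d d' hd hd'

end Pool.Agent.Results.MP_31fd3b_gt.EqualTwistPairs
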