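import Pool.Agent.H953R3.Q2.Om4

/-!
# Vassiliev invariants of order two separate almost all pairs of links given by two ribbon graphs

Diagrams: `Pool.Agent.H891R2.Jones.Diagram` (`Crossing`, `Diagram`: oriented link diagrams with
marked points) and `Pool.Agent.H891R2.MT.Defs` (`Ribbon k`: a ribbon graph with `k` edges, given by the
rotation system on its `2 k` darts, that is, a graph with a cellular embedding in a closed oriented
surface; `Ribbon.Planar`: a connected plane graph; `Ribbon.verts`, `Ribbon.comps Γ S`: numbers of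
vertices and of components of the spanning subgraph with edge set `S`; `Ribbon.link n`: the unoriented
link diagram which is the boundary of the surface made of one disc for every vertex and, for every edge
`e`, a band with `n e` half twists, that is, a row of `|n e|` crossings; `Orients D U`: `D` is the
unoriented diagram `U` with directions).  For plane graphs these are classical diagrams, and every
connected classical link diagram is one of them (with all `n e = ± 1`).

Vassiliev invariants: `Pool.Agent.H832R3.VJ.Defs` (`Dia`: an oriented diagram with the finite set of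
its marked points; `Move`: relabelling, subdivision of strands and the Reidemeister moves; `sing`:
extension to diagrams with double points by the Vassiliev skein relation; `IsVassiliev n v`: `v` is
an invariant of oriented links of order at most `n`; `Separated d X Y`: some integer valued
Vassiliev invariant of order at most `d` has different values on `X` and `Y`).

`Pool.Agent.H953R3.Q2.Fin2`: `Balanced M F A`: for every edge `e ∈ F` the set `A e` contains either
no even numbers or at least `M`, and either no odd numbers or at least `M`.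

Proof: the moments `m₀, m₁, m₂` at `A = 1` of the normalised bracket are Vassiliev invariants of order
at most `2`, and on every parity class `m₀ m₂ - m₁²` is a nonconstant quadratic polynomial in `n`.
-/

set_option autoImplicit false

namespace Pool.Agent.Results.MP_31fd3b_gt.OrderTwoPairs

open Finset LaurentPolynomial Pool.Agent.H891R2.Jones Pool.Agent.H891R2.MT Pool.Agent.H953R3.Q2
  Pool.Agent.H832R3.VJ

variable {k k' : ℕ}

open Classical in
theorem sepT (Γ : Ribbon k) (hk : 0 < k) (hv : Γ.verts < k + Γ.comps Finset.univ)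
    (F : Finset (Fin k)) (hF : Fᶜ.card + Γ.comps Fᶜ = Γ.verts) (X : Dia) (M : ℕ)
    (A : Fin k → Finset ℤ) (hA : Balanced M F A) :
    M * #{n ∈ Fintype.piFinset A | ∃ D : Diagram (Ribbon.Pt n), Orients D (Γ.link n) ∧
      ¬ Separated 2 ⟨_, inferInstance, D⟩ X} ≤ 2 * ∏ e, (A e).card := by
  refine le_trans (Nat.mul_le_mul_left _ (Finset.card_le_card ?_))
    (count_kapT Γ hk hv F hF (kap X.D.fPoly) (moment 0 X.D.fPoly ^ 2) A M hA.zmod)
  intro n hn
  rw [Finset.mem_filter] at hn ⊢
  obtain ⟨hn, D, hD, h⟩ := hn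
  have h0 : Same D.fPoly X.D.fPoly := same_of h
  have h1 := h0.inv
  have h2 := fPoly_inv Γ hk n D hD
  exact ⟨hn, h2.1 ▸ h1.1, h2.2 ▸ h1.2⟩

open Classical in
theorem pairsT (Γ : Ribbon k) (hk : 0 < k) (hv : Γ.verts < k + Γ.comps Finset.univ)
    (F : Finset (Fin k)) (hF : Fᶜ.card + Γ.comps Fᶜ = Γ.verts) (Γ' : Ribbon k')
    (hk' : 0 < k') (M : ℕ) (A : Fin k → Finset ℤ) (hA : Balanced M F A) (A' : Fin k' → Finset ℤ) :
    M * #{p ∈ Fintype.piFinset A ×ˢ Fintype.piFinset A' |
      ∃ (D : Diagram (Ribbon.Pt p.1)) (D' : Diagram (Ribbon.Pt p.2)), Orients D (Γ.link p.1) ∧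
        Orients D' (Γ'.link p.2) ∧
        ¬ Separated 2 ⟨_, inferInstance, D⟩ ⟨_, inferInstance, D'⟩} ≤
      2 * ((∏ e, (A e).card) * ∏ e, (A' e).card) := by
  set Bad := ({p ∈ Fintype.piFinset A ×ˢ Fintype.piFinset A' |
      ∃ (D : Diagram (Ribbon.Pt p.1)) (D' : Diagram (Ribbon.Pt p.2)), Orients D (Γ.link p.1) ∧
        Orients D' (Γ'.link p.2) ∧
        ¬ Separated 2 ⟨_, inferInstance, D⟩ ⟨_, inferInstance, D'⟩}) with hBad
  have hmem : ∀ p ∈ Bad, p.1 ∈ Fintype.piFinset A ∧ p.2 ∈ Fintype.piFinset A' ∧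
      kap (Γ.link p.1).std.bracket = kap (Γ'.link p.2).std.bracket ∧
      moment 0 (Γ.link p.1).std.bracket ^ 2 = moment 0 (Γ'.link p.2).std.bracket ^ 2 := by
    intro p hp
    rw [hBad, Finset.mem_filter, Finset.mem_product] at hp
    obtain ⟨⟨hp1, hp2⟩, D, D', hD, hD', h⟩ := hp
    have h0 : Same D.fPoly D'.fPoly := same_of' h
    have h4 := h0.inv
    have h5 := fPoly_inv Γ hk p.1 D hD
    have h6 := fPoly_inv Γ' hk' p.2 D' hD'
    exact ⟨hp1, hp2, by rw [← h5.1, h4.1, h6.1], by rw [← h5.2, h4.2, h6.2]⟩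
  clear_value Bad
  have h1 := Finset.card_eq_sum_card_fiberwise (s := Bad) (t := Fintype.piFinset A')
    (f := Prod.snd) (fun p hp => (hmem p hp).2.1)
  have h2 : ∀ n' ∈ Fintype.piFinset A', M * #{p ∈ Bad | p.2 = n'} ≤ 2 * ∏ e, (A e).card := by
    intro n' _
    refine le_trans (Nat.mul_le_mul_left _ ?_) (count_kapT Γ hk hv F hF
      (kap (Γ'.link n').std.bracket) (moment 0 (Γ'.link n').std.bracket ^ 2) A M hA.zmod)
    refine Finset.card_le_card_of_injOn Prod.fst ?_ ?_
    · intro p hp
      rw [Finset.mem_coe, Finset.mem_filter] at hp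
      obtain ⟨hp, h3⟩ := hp
      subst h3
      obtain ⟨a1, -, a2, a3⟩ := hmem p hp
      rw [Finset.mem_coe, Finset.mem_filter]
      exact ⟨a1, a2, a3⟩
    · intro p hp q hq h
      rw [Finset.mem_coe, Finset.mem_filter] at hp hq
      exact Prod.ext h (hp.2.trans hq.2.symm)
  rw [h1, Finset.mul_sum]
  refine (Finset.sum_le_sum h2).trans (le_of_eq ?_)
  rw [Finset.sum_const, smul_eq_mul, Fintype.card_piFinset]
  ring

open Classical in
/-- **The pairs in a cube.** -/
theorem cubeT (Γ : Ribbon k) (hk : 0 < k) (hv : Γ.verts < k + Γ.comps Finset.univ)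
    (Γ' : Ribbon k') (hk' : 0 < k') (N : ℕ) :
    N * {p : (Fin k → ℤ) × (Fin k' → ℤ) | (∀ e, |p.1 e| ≤ N) ∧ (∀ e, |p.2 e| ≤ N) ∧
      ∃ (D : Diagram (Ribbon.Pt p.1)) (D' : Diagram (Ribbon.Pt p.2)), Orients D (Γ.link p.1) ∧
        Orients D' (Γ'.link p.2) ∧
        ¬ Separated 2 ⟨_, inferInstance, D⟩ ⟨_, inferInstance, D'⟩}.ncard ≤
      2 * (2 * N + 1) ^ (k + k') := by
  have h := pairsT Γ hk hv Finset.univ (empty_forest Γ) Γ' hk' N _ (balanced_box N Finset.univ)
    (fun _ : Fin k' => Finset.Icc (-(N : ℤ)) N)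
  have hc : ∀ j : ℕ, ∏ e : Fin j, (Finset.Icc (-(N : ℤ)) N).card = (2 * N + 1) ^ j := by
    intro j
    rw [Finset.prod_const, Finset.card_univ, Fintype.card_fin, Int.card_Icc]
    congr 1
    omega
  rw [hc, hc, ← pow_add] at h
  refine le_trans (Nat.mul_le_mul_left _ (le_of_eq ?_)) h
  rw [← Set.ncard_coe_finset]
  congr 1
  ext p
  simp only [Set.mem_setOf_eq, Finset.coe_filter, Finset.mem_product, Fintype.mem_piFinset,
    Finset.mem_Icc, abs_le]
  tauto

open Classical in
/-- Let `Γ` be a ribbon graph with `k ≥ 1` edges which is not a forest (for instance a connected plane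
graph with a cycle), let `F` be a set of edges such that the other edges form a forest, and let `D(n)`,
`n ∈ ℤ^k`, be the link diagram with `|n e|` crossings on the edge `e`.  Let `A e ⊂ ℤ` be finite sets
such that, for `e ∈ F`, the even (odd) elements of `A e` are none or at least `M`.

* Let `X` be any oriented link diagram. Among the links `D(n)`, `n ∈ ∏ A e`, the proportion of those
  which, for some directions, are not separated from `X` by a Vassiliev invariant of order at most `2`
  is at most `2 / M`.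
* Let `Γ'` be any ribbon graph with `k' ≥ 1` edges and let `A' e ⊂ ℤ` be any finite sets. Among the pairs
  of links `D(n)`, `D'(n')`, `n ∈ ∏ A e`, `n' ∈ ∏ A' e`, the proportion of those which, for some
  directions, are not separated by a Vassiliev invariant of order at most `2` is at most `2 / M`.
* In particular, of the `(2 N + 1) ^ (k + k')` pairs with `|n e| ≤ N`, `|n' e| ≤ N`, at most
  `(2 / N) (2 N + 1) ^ (k + k')` are not separated for some directions by the Vassiliev invariants of
  order at most `2`; the bound for the proportion does not depend on the graphs. -/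
theorem result (k : ℕ) (hk : 0 < k) (Γ : Ribbon k) (hΓ : Γ.verts < k + Γ.comps Finset.univ) :
    (∀ (F : Finset (Fin k)), Fᶜ.card + Γ.comps Fᶜ = Γ.verts →
      ∀ (M : ℕ) (A : Fin k → Finset ℤ), Balanced M F A →
      (∀ X : Dia, M * #{n ∈ Fintype.piFinset A | ∃ D : Diagram (Ribbon.Pt n),
          Orients D (Γ.link n) ∧ ¬ Separated 2 ⟨_, inferInstance, D⟩ X} ≤ 2 * ∏ e, (A e).card) ∧
      ∀ (k' : ℕ), 0 < k' → ∀ (Γ' : Ribbon k') (A' : Fin k' → Finset ℤ),
        M * #{p ∈ Fintype.piFinset A ×ˢ Fintype.piFinset A' |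
          ∃ (D : Diagram (Ribbon.Pt p.1)) (D' : Diagram (Ribbon.Pt p.2)), Orients D (Γ.link p.1) ∧
            Orients D' (Γ'.link p.2) ∧
            ¬ Separated 2 ⟨_, inferInstance, D⟩ ⟨_, inferInstance, D'⟩} ≤
          2 * ((∏ e, (A e).card) * ∏ e, (A' e).card)) ∧
    ∀ (k' : ℕ), 0 < k' → ∀ (Γ' : Ribbon k') (N : ℕ),
      N * {p : (Fin k → ℤ) × (Fin k' → ℤ) | (∀ e, |p.1 e| ≤ N) ∧ (∀ e, |p.2 e| ≤ N) ∧
        ∃ (D : Diagram (Ribbon.Pt p.1)) (D' : Diagram (Ribbon.Pt p.2)), Orients D (Γ.link p.1) ∧
          Orients D' (Γ'.link p.2) ∧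
          ¬ Separated 2 ⟨_, inferInstance, D⟩ ⟨_, inferInstance, D'⟩}.ncard ≤
        2 * (2 * N + 1) ^ (k + k') :=
  ⟨fun F hF M A hA => ⟨fun X => sepT Γ hk hΓ F hF X M A hA,
      fun _ hk' Γ' A' => pairsT Γ hk hΓ F hF Γ' hk' M A hA A'⟩,
    fun _ hk' Γ' N => cubeT Γ hk hΓ Γ' hk' N⟩

end Pool.Agent.Results.MP_31fd3b_gt.OrderTwoPairs
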