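import Pool.Agent.Results.MP_42db45_gt.RandomBraidPaths
import Pool.Agent.W705.JR.Vas

/-!
# Vassiliev invariants of linear order along infinite random braid words

Diagrams (starting library `Pool.Agent.H891R2.Jones.Diagram`): `Diagram P` (oriented link diagrams with
marked points `P`, planar or not), `Outer m` (the part of an oriented diagram outside a box through which
`m` strands run, with arbitrary directions), `Outer.close` (fills the rest of the box with vertical strands).
`Pool.Agent.W639.RB.Defs` (starting library): `Letter m = Bool × Fin (m - 1)` (the letters `σ_i^{±1}`),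
`diagram O w` (the diagram obtained by drawing the word `w : Fin n → Letter m` in the box of `O`).
`Pool.Agent.W705.JR.Vas` (starting library): `dia O w` is the diagram `diagram O w` as an element of `Dia`,
`size X` is the number of crossings plus twice the number of marked points of `X`.
Vassiliev invariants (starting library `Pool.Agent.H832R3.VJ.Defs`): `Dia` (an oriented diagram with
the finite set of its marked points), `Separated d X Y` (some integer valued Vassiliev invariant of
oriented links of order at most `d` has different values on `X` and `Y`).
`Pool.Agent.Q262.BP.Base`: `win x i L` (the letters `x i, …, x (i + L - 1)` of the infinite word `x`).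
`Pool.Agent.Results.MP_42db45_gt.RandomBraidPaths`: `IsRandomWord p P X` (the `X k` are independent random
letters with the distribution `p`).

The starting theorem `RandomBraidTuples` is about finitely many INDEPENDENT random words of the same length.
Here all links which arise from the windows of one infinite random word are compared with each other, in
polynomially many surroundings; two windows may overlap or contain each other.
-/

set_option autoImplicit false

namespace Pool.Agent.Results.MP_31fd3b_gt.RandomBraidPaths

open MeasureTheory Filter Pool.Agent.H891R2.Jones Pool.Agent.W639.RB Pool.Agent.H832R3.VJ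
open Pool.Agent.W705.JR Pool.Agent.Q262.BP Pool.Agent.Results.MP_42db45_gt.RandomBraidPaths
open LaurentPolynomial

/-- the number of crossings plus twice the number of marked points of the outside of a box -/
noncomputable def osz {m : ℕ} (O : Outer m) : ℕ := O.crossings.length + 2 * Nat.card O.P

theorem ne_of {f g : ℤ[T;T⁻¹]} (h : ¬ ((2 : ℕ) : ℤ[T;T⁻¹]) ∣ f - g) : f ≠ g := by
  rintro rfl
  apply h
  rw [sub_self]
  exact dvd_zero _

/-- Let `m ≥ 3`, let `p` be a probability vector on the letters `σ_i^{±1}` of the braid group on `m` strands
without zeros, and let `A` be a natural number.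

* If all strands run upwards in the box of `O` and `O` closed by vertical strands is a link diagram, then
  all diagrams obtained by drawing braid words in the box of `O` are link diagrams.
* There is `K > 0` such that for every infinite word `x = X(ω)` of independent random letters with the
  distribution `p`, for all sequences of outsides `O 0, O 1, …` and of diagrams `Y 0, Y 1, …`, almost surely
  for all large `n` and all `s, t < (n + 1)^A`: for any two windows `[i, j)` and `[i', j')` among the first `n`
  letters such that `j' - j` and `j' - i'` are at least `K log (n + 1)`, the link given by the letters of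
  `[i, j)` in the box of `O s` and the one given by those of `[i', j')` in the box of `O t` are separated by a
  Vassiliev invariant whose order is linear in the sizes; and the link given by a window of length at least
  `K log (n + 1)` is in the same sense separated from `Y t`.

For instance for all large `j'` the closure of the braid `x 0 ⋯ x (j' - 1)` is separated by Vassiliev
invariants of order `O(j')` from the closures of all the shorter braids `x 0 ⋯ x (j - 1)` with
`j ≤ j' - K log (j' + 1)` and from all links with at most `j'` crossings of a given sequence. -/
theorem result (m : ℕ) (hm : 3 ≤ m) (p : Letter m → ℝ) (hp : ∀ x, 0 < p x) (hs : ∑ x, p x = 1)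
    (A : ℕ) :
    (∀ (O : Outer m), (∀ j, O.up j = true) → O.close.IsClosed →
      ∀ (n : ℕ) (w : Fin n → Letter m), (diagram O w).IsClosed) ∧
    ∃ K : ℝ, 0 < K ∧
      ∀ (Ω : Type) [MeasurableSpace Ω] (P : Measure Ω) (X : ℕ → Ω → Letter m),
        IsRandomWord p P X → ∀ (O : ℕ → Outer m) (Y : ℕ → Dia),
        ∀ᵐ ω ∂P, ∀ᶠ n : ℕ in atTop,
          (∀ i j i' j' s t d : ℕ, i ≤ j → j' ≤ n →
            j + K * Real.log (n + 1) ≤ j' → i' + K * Real.log (n + 1) ≤ j' →
            s < (n + 1) ^ A → t < (n + 1) ^ A →
            2 * (osz (O s) + (2 * m + 1) * (j - i) + (osz (O t) + (2 * m + 1) * (j' - i'))) < d →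
            Separated d (dia (O s) (win (fun k => X k ω) i (j - i)))
              (dia (O t) (win (fun k => X k ω) i' (j' - i')))) ∧
          (∀ i j s t d : ℕ, j ≤ n → i + K * Real.log (n + 1) ≤ j →
            s < (n + 1) ^ A → t < (n + 1) ^ A →
            2 * (osz (O s) + (2 * m + 1) * (j - i) + size (Y t)) < d →
            Separated d (dia (O s) (win (fun k => X k ω) i (j - i))) (Y t)) := by
  refine ⟨fun O hO hc _ w => draw_closed (toL w) O (toL_mem w) hO hc, ?_⟩
  obtain ⟨K, hK, h⟩ := Pool.Agent.Results.MP_42db45_gt.RandomBraidPaths.result m hm p hp hs (A + 1)
  obtain ⟨δ, -, h⟩ := h 2 le_rfl 0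
  refine ⟨K, hK, fun Ω _ P X hX O Y => ?_⟩
  filter_upwards [h Ω P X hX O (fun t => (Y t).D.fPoly)] with ω hω
  filter_upwards [hω, eventually_ge_atTop 2] with n hn hn2
  obtain ⟨h1, h2, -⟩ := hn
  have hA : (n + 1) ^ A ≤ (n + 1) ^ (A + 1) := Nat.pow_le_pow_right (by omega) (by omega)
  have h2n : 2 < (n + 1) ^ (A + 1) := by
    calc 2 < n + 1 := by omega
      _ = (n + 1) ^ 1 := (pow_one _).symm
      _ ≤ (n + 1) ^ (A + 1) := Nat.pow_le_pow_right (by omega) (by omega)
  constructor
  · intro i j i' j' s t d hij hj' ha hb hs ht hd
    have h3 := h2 i j i' j' s t 2 hij hj' ha hb (by omega) (by omega) h2n le_rfl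
    have h4 := sep_of_ne (dia (O s) (win (fun k => X k ω) i (j - i)))
      (dia (O t) (win (fun k => X k ω) i' (j' - i'))) (ne_of h3)
    refine sep_mono ?_ h4
    rw [size_dia, size_dia]
    unfold osz at hd
    omega
  · intro i j s t d hj hij hs ht hd
    have h3 := h1 i j s t 2 hj hij (by omega) (by omega) h2n le_rfl
    have h4 := sep_of_ne (dia (O s) (win (fun k => X k ω) i (j - i))) (Y t) (ne_of h3)
    refine sep_mono ?_ h4
    rw [size_dia]
    unfold osz at hd
    omega

end Pool.Agent.Results.MP_31fd3b_gt.RandomBraidPaths
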